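import Pool.Agent.E8helper15.FT.Stm
import Pool.Agent.Y729.FW.Surj

/-!
# Project FT (MP_c59389_nt), piece PER (helper9)
-/

set_option autoImplicit false

namespace Pool.Agent.E8helper9.FT

open NumberField Pool.Agent.E8helper15.FT
open Pool.Agent.TH876.FH (IsPeriod)

theorem t_PER : S_PER := by
  intro K _ _ j
  choose τ hτ using fun w : InfinitePlace K => Pool.Agent.Y729.FW.j_surj (w.embedding j)
  exact ⟨τ, hτ⟩

end Pool.Agent.E8helper9.FT
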